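import Mathlib
import Pool.Agent.AHH.Fin

/-!
# The absolute Hodge conjecture (de Rham part): automorphisms which fix all but one element of a
suitable transcendence basis and move the last one by less than `ε` suffice
-/

namespace Pool.Agent.Results.MP_e2e4f5_ag.AllButOne

open Pool.Agent.AHC

/-- There are a transcendence basis `B` of `ℂ` over `ℚ` and an element `t` of `B` such that, for
every `ε > 0` and every class `C` of smooth projective varieties with classes in
`F^k H^{2k}_{dR}` which is stable under `Aut ℂ`, the de Rham part of the absolute Hodge conjecture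
holds on `C` for all automorphisms of `ℂ` if (and only if) it holds on `C` for the automorphisms
which fix all elements of `B` other than `t` and move `t` by less than `ε`. -/
theorem result :
    ∃ (B : Set ℂ) (t : ℂ), IsTranscendenceBasis ℚ (Subtype.val : ↥B → ℂ) ∧ t ∈ B ∧
      ∀ ε : ℝ, 0 < ε → ∀ C : Set Datum, Stable C →
        ((∀ σ : ℂ ≃+* ℂ, (∀ z ∈ B, z ≠ t → σ z = z) → ‖σ t - t‖ < ε → DeRhamPart C σ) ↔
          ∀ σ : ℂ ≃+* ℂ, DeRhamPart C σ) := by
  obtain ⟨B, t, hB, ht, h⟩ := Pool.Agent.AHH.exists_basis_fix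
  refine ⟨B, t, hB, ht, fun ε hε C hC => ⟨fun h1 => ?_, fun h1 σ _ _ => h1 σ⟩⟩
  exact h _ (isClosedMonoid_deRhamPart hC) (cc_mem_deRhamPart C) ε hε h1

end Pool.Agent.Results.MP_e2e4f5_ag.AllButOne
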