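import Mathlib
import Pool.Agent.AHR.Pt

/-!
# The absolute Hodge conjecture (de Rham part): one dihedral group tests all classes
-/

namespace Pool.Agent.Results.MP_e2e4f5_ag.DihedralTest

open Pool.Agent.AHC Pool.Agent.AHR

/-- There is an automorphism `ρ` of `ℂ` which fixes all algebraic numbers such that, with the
involution `i = ρ⁻¹ c ρ` (`c` is complex conjugation), for every smooth projective variety with a
class in `F^k H^{2k}_{dR}` and every set `T` of automorphisms of `ℂ` the following are equivalent:
the conjugates of the class by all products of `i`, `c` and elements of `T` are rational; the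
conjugates of the class by all automorphisms `σ` which fix every real algebraic number fixed by all
elements of `T` are rational.

For empty `T`: a Hodge class is absolute over the real algebraic numbers if and only if its
conjugates by the elements of the dihedral group generated by `c` and `i` are Hodge classes.  If Q1
(de Rham part) holds for `i` and the elements of `T` on a class of data stable under `Aut ℂ`, then
it holds on it for all these `σ`. -/
theorem result :
    ∃ ρ : ℂ ≃+* ℂ, FixesAlg ρ ∧ ∀ (d : Datum) (T : Set (ℂ ≃+* ℂ)),
      (∀ w : RingAut ℂ,
        w ∈ Submonoid.closure (insert (conjBy ρ) (insert cc T) : Set (RingAut ℂ)) →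
          (d.conj w).IsRational) ↔
      ∀ σ : ℂ ≃+* ℂ, (∀ z, IsAlgebraic ℚ z → z.im = 0 → (∀ τ ∈ T, τ z = z) → σ z = z) →
        (d.conj σ).IsRational :=
  dihedral

end Pool.Agent.Results.MP_e2e4f5_ag.DihedralTest
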