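import Mathlib
import Pool.Agent.AHH.Fin

/-!
# The absolute Hodge conjecture (de Rham part) for the involutions `τ⁻¹ c τ` with `τ` over a
subfield `K`
-/

namespace Pool.Agent.Results.MP_e2e4f5_ag.InvolutionsOver

open Pool.Agent.AHC

/-- Let `K` be a subfield of `ℂ` such that every field `L` which is algebraic over `K` and stable
under complex conjugation `c` and under all automorphisms of `ℂ` over `K` consists of algebraic
numbers (for example all real numbers algebraic over `K` may be algebraic numbers).  For every
class `C` of smooth projective varieties with classes in `F^k H^{2k}_{dR}` which is stable under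
`Aut ℂ`: the de Rham part of the absolute Hodge conjecture holds on `C` for the involutions
`τ⁻¹ c τ`, where `τ` runs through the automorphisms over `K`, if and only if it holds on `C` for
all automorphisms which fix every algebraic number `z` all of whose conjugates over the field of
the algebraic numbers in `K` are real. -/
theorem result :
    ∀ C : Set Datum, Stable C → ∀ K : Subfield ℂ,
      (∀ L : Subfield ℂ, (∀ z ∈ L, IsAlgebraic K z) → (∀ z ∈ L, cc z ∈ L) →
        (∀ σ : ℂ ≃+* ℂ, (∀ z ∈ K, σ z = z) → ∀ z ∈ L, σ z ∈ L) → ∀ z ∈ L, IsAlgebraic ℚ z) →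
      ((∀ τ : ℂ ≃+* ℂ, (∀ z ∈ K, τ z = z) → DeRhamPart C (conjBy τ)) ↔
        ∀ σ : ℂ ≃+* ℂ, (∀ z : ℂ, IsAlgebraic ℚ z →
          (∀ τ : ℂ ≃+* ℂ, (∀ y ∈ K, IsAlgebraic ℚ y → τ y = y) → (τ z).im = 0) → σ z = z) →
          DeRhamPart C σ) :=
  fun _ hC K hK => Pool.Agent.AHH.inv_subfield (isClosedMonoid_deRhamPart hC) K hK

end Pool.Agent.Results.MP_e2e4f5_ag.InvolutionsOver
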