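import Mathlib
import Pool.Agent.AHI.Fin

/-!
# The absolute Hodge conjecture (de Rham part): the integral form for one involution suffices over
the real algebraic numbers
-/

namespace Pool.Agent.Results.MP_e2e4f5_ag.OneInvolution

open Pool.Agent.AHC Pool.Agent.AHI

/-- There is an automorphism `ρ` of `ℂ` which fixes all algebraic numbers such that, for every
class `C` of smooth projective varieties with classes in `F^k H^{2k}_{dR}` which is stable under
`Aut ℂ` and for every set `T` of automorphisms of `ℂ`: the integral form of the de Rham part of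
the absolute Hodge conjecture (if `M v` is integral, then so is `M v_σ`) holds on `C` for the
single involution `ρ⁻¹ c ρ` and all elements of `T` if and only if it holds on `C` for all
automorphisms `σ` which fix every real algebraic number fixed by all elements of `T`, and then the
de Rham part (if `v` is rational, then so is `v_σ`) holds on `C` for all of these `σ`.  (For empty
`T` these are the automorphisms which fix all real algebraic numbers.) -/
theorem result :
    ∃ ρ : ℂ ≃+* ℂ, (∀ z, IsAlgebraic ℚ z → ρ z = z) ∧
      ∀ C : Set Datum, Stable C → ∀ T : Set (ℂ ≃+* ℂ),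
        ((IntegralPart C (conjBy ρ) ∧ ∀ τ ∈ T, IntegralPart C τ) ↔
          ∀ σ : ℂ ≃+* ℂ, (∀ z, IsAlgebraic ℚ z → z.im = 0 → (∀ τ ∈ T, τ z = z) → σ z = z) →
            IntegralPart C σ) ∧
        ((IntegralPart C (conjBy ρ) ∧ ∀ τ ∈ T, IntegralPart C τ) →
          ∀ σ : ℂ ≃+* ℂ, (∀ z, IsAlgebraic ℚ z → z.im = 0 → (∀ τ ∈ T, τ z = z) → σ z = z) →
            RationalPart C σ) := by
  obtain ⟨ρ, h1, h2⟩ := Pool.Agent.AHI.main
  exact ⟨ρ, h1, fun C hC T => ⟨h2 C hC T, fun h σ hσ => ((h2 C hC T).1 h σ hσ).rational⟩⟩

end Pool.Agent.Results.MP_e2e4f5_ag.OneInvolution
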