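import Mathlib
import Pool.Agent.AHH.Fin

/-!
# The absolute Hodge conjecture (de Rham part): automorphisms over a subfield `K` and over its
real elements
-/

namespace Pool.Agent.Results.MP_e2e4f5_ag.RealElements

open Pool.Agent.AHC Pool.Agent.AHH

/-- Let `K` be a subfield of `ℂ` such that every field `L` which is algebraic over `K` and stable
under complex conjugation and under all automorphisms of `ℂ` over `K` is algebraic over the field
of the real elements of `K` (for example `K` may be algebraically closed, or all real numbers
algebraic over `K` may be algebraic numbers).  For every class `C` of smooth projective varieties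
with classes in `F^k H^{2k}_{dR}` which is stable under `Aut ℂ`: the de Rham part of the absolute
Hodge conjecture holds on `C` for all automorphisms over `K` if and only if it holds on `C` for
all automorphisms over the field of the real elements of `K`. -/
theorem result :
    ∀ C : Set Datum, Stable C → ∀ K : Subfield ℂ,
      (∀ L : Subfield ℂ, (∀ z ∈ L, IsAlgebraic K z) → (∀ z ∈ L, cc z ∈ L) →
        (∀ σ : ℂ ≃+* ℂ, (∀ z ∈ K, σ z = z) → ∀ z ∈ L, σ z ∈ L) →
        ∀ z ∈ L, IsAlgebraic (realPart K) z) →
      ((∀ σ : ℂ ≃+* ℂ, (∀ z ∈ K, σ z = z) → DeRhamPart C σ) ↔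
        ∀ σ : ℂ ≃+* ℂ, (∀ z ∈ K, z.im = 0 → σ z = z) → DeRhamPart C σ) := by
  refine fun C hC K hK => ⟨fun h σ hσ => ?_, fun h σ hσ => h σ fun z hz _ => hσ z hz⟩
  exact fix_real_subfield (isClosedMonoid_deRhamPart hC) (cc_mem_deRhamPart C) K hK h σ hσ

end Pool.Agent.Results.MP_e2e4f5_ag.RealElements
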