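import Mathlib
import Pool.Agent.AHR.Dich

/-!
# The absolute Hodge conjecture (de Rham part): a zero-one law
-/

namespace Pool.Agent.Results.MP_e2e4f5_ag.ZeroOneLaw

open Pool.Agent.AHC Pool.Agent.AHR

/-- Let `C` be a class of smooth projective varieties with classes in `F^k H^{2k}_{dR}` which is
stable under `Aut ℂ`.  The set of automorphisms of `ℂ` for which Q1 (de Rham part) holds on `C` is
somewhere dense in `Aut ℂ` (pointwise convergence, usual topology of `ℂ`) if and only if it is the
group of all automorphisms which fix a number field `k` consisting of real numbers. -/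
theorem result (C : Set Datum) (hC : Stable C) :
    SomewhereDenseIn {σ | DeRhamPart C σ} ↔ ∃ k : IntermediateField ℚ ℂ,
      FiniteDimensional ℚ k ∧ (∀ z ∈ k, z.im = 0) ∧
        ∀ σ : ℂ ≃+* ℂ, DeRhamPart C σ ↔ ∀ z ∈ k, σ z = z :=
  dichotomy hC

end Pool.Agent.Results.MP_e2e4f5_ag.ZeroOneLaw
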